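import Pool.Agent.Helper9.CC.Stm

/-!
# CC: `S_DOM` from `S_PERM` and `S_ORD`
-/

set_option autoImplicit false

namespace Pool.Agent.Helper4.CC

open Module Pool.Agent.Helper9.CC

variable {l : ℕ}

theorem lat_zero : (0 : NS l) ∈ Lat l :=
  ⟨fun _ => ⟨0, by simp⟩, ⟨0, by simp⟩⟩

theorem lat_add {x y : NS l} (hx : x ∈ Lat l) (hy : y ∈ Lat l) : x + y ∈ Lat l := by
  refine ⟨fun j => ?_, ?_⟩
  · obtain ⟨m, hm⟩ := hx.1 j
    obtain ⟨n, hn⟩ := hy.1 j
    exact ⟨m + n, by rw [Prod.fst_add, Pi.add_apply, hm, hn, Int.cast_add]⟩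
  · obtain ⟨m, hm⟩ := hx.2
    obtain ⟨n, hn⟩ := hy.2
    exact ⟨m + n, by rw [Prod.snd_add, hm, hn, Int.cast_add]⟩

theorem lat_sum {ι : Type} (s : Finset ι) (f : ι → NS l) (h : ∀ i ∈ s, f i ∈ Lat l) :
    ∑ i ∈ s, f i ∈ Lat l :=
  Finset.sum_induction _ _ (fun _ _ => lat_add) lat_zero h

/-- the cone spanned by a finite family -/
theorem mem_cone_image {ι : Type} [DecidableEq ι] [DecidableEq (NS l)] (T : Finset ι)
    (f : ι → NS l) (x : NS l) :
    x ∈ cone ((T.image f : Finset (NS l)) : Set (NS l)) ↔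
      ∃ c : ι → ℝ, (∀ t, 0 ≤ c t) ∧ x = ∑ t ∈ T, c t • f t := by
  constructor
  · rintro ⟨n, c, w, hc, hw, rfl⟩
    have h1 : ∀ k, ∃ t ∈ T, f t = w k := fun k => by
      have := hw k
      rw [Finset.mem_coe, Finset.mem_image] at this
      exact this
    choose τ hτ hf using h1
    refine ⟨fun t => ∑ k ∈ Finset.univ.filter (fun k => τ k = t), c k,
      fun t => Finset.sum_nonneg fun k _ => hc k, ?_⟩
    rw [← Finset.sum_fiberwise_of_maps_to (s := Finset.univ) (t := T) (g := τ)
      (fun k _ => hτ k)]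
    refine Finset.sum_congr rfl fun t _ => ?_
    rw [Finset.sum_smul]
    refine Finset.sum_congr rfl fun k hk => ?_
    rw [← hf k, (Finset.mem_filter.1 hk).2]
  · rintro ⟨c, hc, rfl⟩
    refine ⟨T.card, fun k => c (T.equivFin.symm k), fun k => f (T.equivFin.symm k),
      fun k => hc _, fun k => ?_, ?_⟩
    · rw [Finset.mem_coe, Finset.mem_image]
      exact ⟨_, (T.equivFin.symm k).2, rfl⟩
    · rw [← Finset.sum_coe_sort T fun t => c t • f t]
      exact (Equiv.sum_comp T.equivFin.symm fun t : T => c t • f t).symm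

theorem mem_cone_range {l : ℕ} (v : Fin (l + 1) → NS l) (x : NS l) :
    x ∈ cone (Set.range v) ↔ ∃ c : Fin (l + 1) → ℝ, (∀ i, 0 ≤ c i) ∧ x = ∑ i, c i • v i := by
  classical
  have h := mem_cone_image (Finset.univ : Finset (Fin (l + 1))) v x
  have h2 : ((Finset.univ.image v : Finset (NS l)) : Set (NS l)) = Set.range v := by
    ext y
    simp
  rw [h2] at h
  exact h

theorem dom (hP : S_PERM) (hO : S_ORD) : S_DOM := by
  classical
  intro l v hv hlat hprim Γ hΓl hΓc
  have hcard : Fintype.card (Fin (l + 1)) = finrank ℝ (NS l) := by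
    rw [Fintype.card_fin, Module.finrank_prod, Module.finrank_fin_fun, Module.finrank_self]
  let B : Basis (Fin (l + 1)) ℝ (NS l) := basisOfLinearIndependentOfCardEqFinrank hv hcard
  have hB : ∀ i, B i = v i := fun i => by
    have := coe_basisOfLinearIndependentOfCardEqFinrank hv hcard
    exact congrFun this i
  let e : NS l ≃ₗ[ℝ] (Fin (l + 1) → ℝ) := B.equivFun
  have he : ∀ c : Fin (l + 1) → ℝ, e (∑ i, c i • v i) = c := by
    intro c
    have h1 : ∑ i, c i • v i = ∑ i, c i • B i := by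
      refine Finset.sum_congr rfl fun i _ => by rw [hB]
    rw [h1, ← B.equivFun_symm_apply]
    exact e.apply_symm_apply c
  have hsum : ∀ x : NS l, x = ∑ i, e x i • v i := by
    intro x
    apply e.injective
    rw [he]
  have hcone : ∀ x, x ∈ cone (Set.range v) ↔ ∀ i, 0 ≤ e x i := by
    intro x
    rw [mem_cone_range]
    constructor
    · rintro ⟨c, hc, rfl⟩ i
      rw [he]
      exact hc i
    · intro h
      exact ⟨e x, h, hsum x⟩
  -- the permutations
  have hperm : ∀ g ∈ Γ, ∃ σ : Equiv.Perm (Fin (l + 1)), ∀ i, g (v i) = v (σ i) := fun g hg =>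
    hP v hv hlat hprim g (hΓl g hg) (hΓc g hg)
  have hinj : Function.Injective v := hv.injective
  let Γ' : Subgroup (Equiv.Perm (Fin (l + 1))) :=
    { carrier := {τ | ∃ g ∈ Γ, ∀ i, g (v i) = v (τ i)}
      mul_mem' := by
        rintro τ τ' ⟨g, hg, h⟩ ⟨g', hg', h'⟩
        refine ⟨g * g', Γ.mul_mem hg hg', fun i => ?_⟩
        rw [LinearEquiv.mul_apply, h', h, Equiv.Perm.mul_apply]
      one_mem' := ⟨1, Γ.one_mem, fun i => rfl⟩
      inv_mem' := by
        rintro τ ⟨g, hg, h⟩
        refine ⟨g⁻¹, Γ.inv_mem hg, fun i => ?_⟩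
        have h1 : g (v (τ⁻¹ i)) = v i :=
          (h (τ⁻¹ i)).trans (congrArg v (τ.apply_symm_apply i))
        rw [← h1]
        exact g.symm_apply_apply _ }
  have hcoord : ∀ (g : NS l ≃ₗ[ℝ] NS l) (τ : Equiv.Perm (Fin (l + 1))),
      (∀ i, g (v i) = v (τ i)) → ∀ y i, e y i = e (g y) (τ i) := by
    intro g τ h y i
    have h1 : g y = ∑ j, e y (τ.symm j) • v j := by
      conv_lhs => rw [hsum y]
      rw [map_sum]
      rw [← Equiv.sum_comp τ fun j => e y (τ.symm j) • v j]
      refine Finset.sum_congr rfl fun j _ => ?_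
      rw [map_smul, h, Equiv.symm_apply_apply]
    rw [h1, he, Equiv.symm_apply_apply]
  obtain ⟨T, D, hD, hD1, hD2⟩ := hO Γ'
  let s : Finset (Fin (l + 1)) → NS l := fun t => ∑ i ∈ t, v i
  have hs : ∀ c : Finset (Fin (l + 1)) → ℝ, ∑ t ∈ T, c t • s t =
      ∑ i, (∑ t ∈ T, if i ∈ t then c t else 0) • v i := by
    intro c
    simp only [Finset.sum_smul]
    rw [Finset.sum_comm]
    refine Finset.sum_congr rfl fun t _ => ?_
    show c t • ∑ i ∈ t, v i = _
    rw [Finset.smul_sum]
    simp only [ite_smul, zero_smul]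
    rw [Finset.sum_ite_mem, Finset.univ_inter]
  have hS : ∀ x, x ∈ cone ((T.image s : Finset (NS l)) : Set (NS l)) ↔ e x ∈ D := by
    intro x
    rw [mem_cone_image, hD]
    refine exists_congr fun c => and_congr_right fun _ => ?_
    rw [hs]
    constructor
    · rintro rfl i
      rw [he]
    · intro h
      conv_lhs => rw [hsum x]
      refine Finset.sum_congr rfl fun i _ => by rw [h i]
  have hSA : cone ((T.image s : Finset (NS l)) : Set (NS l)) ⊆ cone (Set.range v) := by
    intro x hx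
    rw [hS, hD] at hx
    obtain ⟨c, hc, hx⟩ := hx
    rw [hcone]
    intro i
    rw [hx i]
    refine Finset.sum_nonneg fun t _ => ?_
    split_ifs
    · exact hc t
    · exact le_rfl
  have hSD : cone ((T.image s : Finset (NS l)) : Set (NS l)) = e ⁻¹' D := by
    ext x
    rw [hS, Set.mem_preimage]
  have hint : interior (cone ((T.image s : Finset (NS l)) : Set (NS l))) = e ⁻¹' interior D := by
    rw [hSD]
    exact (e.toContinuousLinearEquiv.toHomeomorph.preimage_interior D).symm
  refine ⟨T.image s, ?_, hSA, ?_, ?_, ?_⟩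
  · intro x hx
    obtain ⟨t, -, rfl⟩ := Finset.mem_image.1 hx
    exact lat_sum t v fun i _ => hlat i
  · intro x hx
    obtain ⟨σ, ⟨g, hg, hσ⟩, h⟩ := hD1 (e x) ((hcone x).1 hx)
    refine ⟨g, hg, g.symm x, ?_, (g.apply_symm_apply x).symm⟩
    rw [hS]
    convert h using 1
    funext i
    rw [hcoord g σ hσ, g.apply_symm_apply]
  · intro g hg y hy
    exact (hΓc g hg y).1 (hSA hy)
  · intro g hg hg1
    obtain ⟨σ, hσ⟩ := hperm g hg
    have hσ1 : σ ≠ 1 := by
      intro h
      apply hg1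
      rw [h] at hσ
      ext1 x
      rw [hsum x, map_sum]
      simp only [map_smul, hσ]
      rfl
    rw [Set.disjoint_left]
    intro x hx hx'
    have himg : interior (g '' cone ((T.image s : Finset (NS l)) : Set (NS l))) =
        g '' interior (cone ((T.image s : Finset (NS l)) : Set (NS l))) :=
      (g.toContinuousLinearEquiv.toHomeomorph.image_interior _).symm
    rw [himg] at hx'
    obtain ⟨y, hy, rfl⟩ := hx'
    rw [hint, Set.mem_preimage] at hx hy
    apply hD2 σ ⟨g, hg, hσ⟩ hσ1 _ hx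
    convert hy using 1
    funext i
    rw [hcoord g σ hσ y i]

end Pool.Agent.Helper4.CC
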