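import Pool.Agent.Helper9.CC.Stm
import Pool.Agent.Helper9.CC.Lc
import Pool.Agent.Helper97.PP.Sub

/-!
# CC: `S_GEN2` from `S_WT`
-/

set_option autoImplicit false

namespace Pool.Agent.Helper4.CC

open FF Module MvPolynomial Pool.Agent.Helper9.FJ Pool.Agent.Helper9.PP Pool.Agent.Helper9.CC
  Pool.Agent.Helper97.PP

variable {K : Type} [Field K] [Algebra ℂ K] [IsFF ℂ K] {l : ℕ} {r : Fin l → ℕ}

theorem coord_eq (G : ∀ j, Matrix (Fin (r j)) (Fin (r j)) K) (s : MvPolynomial (Vr r) K) :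
    coord G s = psM G s := rfl

theorem coord_ne (G : ∀ j, Matrix (Fin (r j)) (Fin (r j)) K) (hG : ∀ j, (G j).det ≠ 0)
    {s : MvPolynomial (Vr r) K} (hs : s ≠ 0) : coord G s ≠ 0 := by
  intro h
  apply hs
  have h1 := psM_comp G (fun j => (G j)⁻¹) s
  have h2 : (fun j => G j * (G j)⁻¹) = fun j => (1 : Matrix (Fin (r j)) (Fin (r j)) K) := by
    funext j
    exact Matrix.mul_nonsing_inv _ (isUnit_iff_ne_zero.2 (hG j))
  have h3 : psM G s = 0 := h
  rw [h2, psM_one, h3, map_zero] at h1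
  exact h1.symm

theorem gen2 (hWT : S_WT) : S_GEN2 := by
  intro K _ _ _ l r E Δ W hr hCY hlc
  obtain ⟨G, m, hG, hm, hsec⟩ := hWT E hr
  have hne : ∀ j, (Finset.univ : Finset (Fin (r j))).Nonempty := fun j =>
    ⟨⟨0, hr j⟩, Finset.mem_univ _⟩
  -- the smallest weights
  have hmin : ∀ j, ∃ i : Fin (r j), ∀ i', m ⟨j, i⟩ ≤ m ⟨j, i'⟩ := fun j => by
    obtain ⟨i, -, hi⟩ := Finset.exists_min_image Finset.univ (fun i => m ⟨j, i⟩) (hne j)
    exact ⟨i, fun i' => hi i' (Finset.mem_univ _)⟩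
  choose i0 hi0 using hmin
  set m0 : Fin l → ℝ := fun j => m ⟨j, i0 j⟩ with hm0
  set w : Vr r → ℝ := fun x => m x - m0 x.1 with hw
  have hw0 : ∀ x, 0 ≤ w x := fun x => by
    rw [hw]
    simp only [sub_nonneg]
    exact hi0 x.1 x.2
  have hwz : ∀ j, ∃ i, w ⟨j, i⟩ = 0 := fun j => ⟨i0 j, sub_self _⟩
  -- the main inequality
  have key : ∀ α : Fin Δ.q → (Vr r →₀ ℕ), (∀ i, coeff (α i) (coord G (Δ.s i)) ≠ 0) →
      (ddeg W : ℝ) + ∑ x, w x ≤ ∑ i, Δ.c i * ∑ x, (α i x : ℝ) * w x := by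
    intro α hα
    have h1 : ∀ i, -(ddeg (Δ.b i) : ℝ) ≤ ∑ x, (α i x : ℝ) * w x + ∑ j, m0 j * (Δ.a i j : ℝ) := by
      intro i
      have h2 := hsec (Δ.a i) (Δ.b i) (Δ.s i) (Δ.sec i) (α i) (hα i)
      have h3 : ∀ j, ∑ k, (α i) ⟨j, k⟩ = Δ.a i j := fun j =>
        mh_psM (Δ.sec i).1 G (α i) (hα i) j
      have h4 : ∑ x : Vr r, (α i x : ℝ) * m x = ∑ x, (α i x : ℝ) * w x +
          ∑ j, m0 j * (Δ.a i j : ℝ) := by
        have h5 : ∑ x : Vr r, (α i x : ℝ) * m0 x.1 = ∑ j, m0 j * (Δ.a i j : ℝ) := by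
          rw [Fintype.sum_sigma]
          refine Finset.sum_congr rfl fun j _ => ?_
          rw [← h3 j, Nat.cast_sum, Finset.mul_sum]
          exact Finset.sum_congr rfl fun k _ => mul_comm _ _
        rw [← h5, ← Finset.sum_add_distrib]
        refine Finset.sum_congr rfl fun x _ => ?_
        rw [hw]
        ring
      rw [← h4]
      exact h2
    have h2 : -∑ i, Δ.c i * (ddeg (Δ.b i) : ℝ) ≤ ∑ i, Δ.c i * ∑ x, (α i x : ℝ) * w x +
        ∑ j, m0 j * (r j : ℝ) := by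
      have h3 : ∑ j, m0 j * (r j : ℝ) = ∑ i, Δ.c i * ∑ j, m0 j * (Δ.a i j : ℝ) := by
        simp only [Finset.mul_sum]
        rw [Finset.sum_comm]
        refine Finset.sum_congr rfl fun j _ => ?_
        rw [← hCY.1 j, Finset.mul_sum]
        exact Finset.sum_congr rfl fun i _ => by ring
      rw [h3, ← Finset.sum_add_distrib, ← Finset.sum_neg_distrib]
      refine Finset.sum_le_sum fun i _ => ?_
      have h4 := mul_le_mul_of_nonneg_left (h1 i) (Δ.c_nonneg i)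
      linarith
    have h3 : ∑ j, (ddeg (E j).detDiv : ℝ) = ∑ x, w x + ∑ j, m0 j * (r j : ℝ) := by
      have h4 : ∑ x : Vr r, m0 x.1 = ∑ j, m0 j * (r j : ℝ) := by
        rw [Fintype.sum_sigma]
        refine Finset.sum_congr rfl fun j _ => ?_
        have h6 : ∑ _y : Fin (r j), m0 j = m0 j * (r j : ℝ) := by
          rw [Finset.sum_const, Finset.card_univ, Fintype.card_fin, nsmul_eq_mul, mul_comm]
        exact h6
      have h5 : ∑ x : Vr r, m x = ∑ j, (ddeg (E j).detDiv : ℝ) := by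
        rw [Fintype.sum_sigma]
        exact Finset.sum_congr rfl fun j _ => hm j
      rw [← h4, ← h5, ← Finset.sum_add_distrib]
      exact Finset.sum_congr rfl fun x _ => by rw [hw]; ring
    have h4 := hCY.2
    linarith
  by_cases hx : ∃ x, w x ≠ 0
  · obtain ⟨α, hα, hle⟩ := hlc G w hG hw0 hwz hx
    have h1 := (key α hα).trans hle
    have h2 : (ddeg W : ℝ) ≤ 0 := by linarith
    exact_mod_cast h2
  · push Not at hx
    have h1 : ∀ i, ∃ α, coeff α (coord G (Δ.s i)) ≠ 0 := fun i =>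
      MvPolynomial.ne_zero_iff.1 (coord_ne G hG (Δ.ne i))
    choose α hα using h1
    have h2 := key α hα
    simp only [hx, mul_zero, Finset.sum_const_zero, add_zero] at h2
    exact_mod_cast h2

end Pool.Agent.Helper4.CC
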